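import Mathlib
import Pool.Agent.HuaKey73.Germ

/-!
# Characteristic `p`: pairs of subgroups of an ultrapower from ideals of the group ring

`tt a = [a] - 1`.  For an additive map `g`, an ideal `aa` of the group ring and a point `c` we ask
for products `tt (g^i₁ c) * … * tt (g^iₙ c)` outside `aa`.  If they exist for all `n` (for suitable
`c`), there is a pair `(Q, Q)` of subgroups of the ultrapower; otherwise products of `4 n` factors
`tt b`, `b` in a field, lie in `aa`.
-/

set_option autoImplicit false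

open Filter

namespace Pool.Agent.HuaP87

open Pool.Agent.HuaTop84 Pool.Agent.HuaVal Pool.Agent.HuaOne84 Pool.Agent.HuaPair25
  Pool.Agent.HuaKey73

section ring

variable {A : Type} [AddCommGroup A]

/-- the ideal generated by the `tt q`, `q ∈ Q` -/
noncomputable def IQ (Q : AddSubgroup A) : Ideal (AddMonoidAlgebra ℤ A) :=
  Ideal.span (tt '' (Q : Set A))

theorem tt_mem_IQ {Q : AddSubgroup A} {q : A} (h : q ∈ Q) : tt q ∈ IQ Q :=
  Ideal.subset_span ⟨q, h, rfl⟩

theorem tt_mem_span_closure {S : Set A} {a : A} (ha : a ∈ AddSubgroup.closure S) :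
    tt a ∈ Ideal.span (tt '' S) := by
  induction ha using AddSubgroup.closure_induction with
  | mem x hx => exact Ideal.subset_span ⟨x, hx, rfl⟩
  | zero => rw [tt_zero]; exact Ideal.zero_mem _
  | add x y _ _ hx hy =>
    rw [tt_add]
    exact Ideal.add_mem _ (Ideal.mul_mem_left _ _ hy) hx
  | neg x _ hx =>
    rw [tt_neg]
    exact Submodule.neg_mem _ (Ideal.mul_mem_left _ _ hx)

theorem IQ_closure (S : Set A) : IQ (AddSubgroup.closure S) = Ideal.span (tt '' S) := by
  apply le_antisymm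
  · rw [IQ, Ideal.span_le]
    rintro _ ⟨a, ha, rfl⟩
    exact tt_mem_span_closure ha
  · rw [Ideal.span_le]
    rintro _ ⟨a, ha, rfl⟩
    exact tt_mem_IQ (AddSubgroup.subset_closure ha)

theorem IQ_mono {Q Q' : AddSubgroup A} (h : Q ≤ Q') : IQ Q ≤ IQ Q' := by
  rw [IQ, Ideal.span_le]
  rintro _ ⟨a, ha, rfl⟩
  exact tt_mem_IQ (h ha)

theorem IQ_sup (Q Q' : AddSubgroup A) : IQ (Q ⊔ Q') = IQ Q ⊔ IQ Q' := by
  apply le_antisymm
  · have h : Q ⊔ Q' = AddSubgroup.closure ((Q : Set A) ∪ (Q' : Set A)) := by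
      rw [AddSubgroup.closure_union, AddSubgroup.closure_eq, AddSubgroup.closure_eq]
    rw [h, IQ_closure, Ideal.span_le]
    rintro _ ⟨a, ha | ha, rfl⟩
    · exact (le_sup_left : IQ Q ≤ _) (tt_mem_IQ ha)
    · exact (le_sup_right : IQ Q' ≤ _) (tt_mem_IQ ha)
  · exact sup_le (IQ_mono le_sup_left) (IQ_mono le_sup_right)

theorem IQ_bot : IQ (⊥ : AddSubgroup A) = ⊥ := by
  rw [IQ, eq_bot_iff, Ideal.span_le]
  rintro _ ⟨a, ha, rfl⟩
  have h : a = 0 := ha
  rw [h, tt_zero]
  exact Ideal.zero_mem _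

variable (g : A →+ A) (aa : Ideal (AddMonoidAlgebra ℤ A)) (c : A)

/-- There is a product of `n` factors `tt (g^i c)` outside `aa + I_Q`. -/
def PN (n : ℕ) (Q : AddSubgroup A) : Prop :=
  ∃ s : Fin n → ℕ, ∏ k, tt (g^[s k] c) ∉ aa ⊔ IQ Q

/-- the subgroup generated by the orbit of `e` -/
def orb (e : A) : AddSubgroup A := AddSubgroup.closure (Set.range fun i : ℕ => g^[i] e)

theorem mem_orb (e : A) : e ∈ orb g e := AddSubgroup.subset_closure ⟨0, rfl⟩

theorem orb_stable (e a : A) (ha : a ∈ orb g e) : g a ∈ orb g e := by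
  have h : orb g e ≤ (orb g e).comap g := by
    rw [orb, AddSubgroup.closure_le]
    rintro _ ⟨i, rfl⟩
    refine AddSubgroup.subset_closure ⟨i + 1, ?_⟩
    exact Function.iterate_succ_apply' _ _ _
  exact h ha

theorem orb_zero : orb g (0 : A) = ⊥ := by
  rw [orb, AddSubgroup.closure_eq_bot_iff]
  rintro _ ⟨i, rfl⟩
  exact Function.iterate_fixed (map_zero g) i

variable {g aa c}

theorem IQ_orb (e : A) : IQ (orb g e) = Ideal.span (Set.range fun i : ℕ => tt (g^[i] e)) := by
  rw [orb, IQ_closure, ← Set.range_comp]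
  rfl

/-- the product of the two orbit ideals -/
theorem orb_mul_le {e e' : A} (h : ∀ i j : ℕ, tt (g^[i] e) * tt (g^[j] e') ∈ aa) :
    IQ (orb g e) * IQ (orb g e') ≤ aa := by
  rw [IQ_orb, IQ_orb, Ideal.span_mul_span', Ideal.span_le]
  rintro _ ⟨_, ⟨i, rfl⟩, _, ⟨j, rfl⟩, rfl⟩
  exact h i j

theorem sup_mul_sup_le {R : Type*} [CommRing R] {X Y Z : Ideal R} (h : Y * Z ≤ X) :
    (X ⊔ Y) * (X ⊔ Z) ≤ X := by
  rw [Ideal.sup_mul, Ideal.mul_sup Y]
  exact sup_le Ideal.mul_le_left (sup_le Ideal.mul_le_right h)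

theorem PN.step {n m : ℕ} {Q : AddSubgroup A} (h : PN g aa c (n + m) Q) {e e' : A}
    (he : ∀ i j : ℕ, tt (g^[i] e) * tt (g^[j] e') ∈ aa) :
    PN g aa c n (Q ⊔ orb g e) ∨ PN g aa c m (Q ⊔ orb g e') := by
  obtain ⟨s, hs⟩ := h
  by_contra hcon
  rw [not_or] at hcon
  obtain ⟨h1, h2⟩ := hcon
  apply hs
  rw [Fin.prod_univ_add]
  have a1 : ∏ k, tt (g^[s (Fin.castAdd m k)] c) ∈ aa ⊔ IQ (Q ⊔ orb g e) := by
    by_contra h3
    exact h1 ⟨_, h3⟩
  have a2 : ∏ k, tt (g^[s (Fin.natAdd n k)] c) ∈ aa ⊔ IQ (Q ⊔ orb g e') := by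
    by_contra h3
    exact h2 ⟨_, h3⟩
  have a3 := Ideal.mul_mem_mul a1 a2
  refine (?_ : (aa ⊔ IQ (Q ⊔ orb g e)) * (aa ⊔ IQ (Q ⊔ orb g e')) ≤ aa ⊔ IQ Q) a3
  rw [IQ_sup, IQ_sup, ← sup_assoc, ← sup_assoc]
  exact sup_mul_sup_le ((orb_mul_le he).trans le_sup_left)

/-- the points `c`, `e`, `e'` -/
theorem PN.notMem {Q : AddSubgroup A} (hQ : ∀ a ∈ Q, g a ∈ Q) {n : ℕ} (hn : n ≠ 0)
    (h : PN g aa c n Q) : c ∉ Q := by
  intro hc
  obtain ⟨s, hs⟩ := h
  apply hs
  have h1 : ∀ i : ℕ, g^[i] c ∈ Q := by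
    intro i
    induction i with
    | zero => exact hc
    | succ i ih =>
      rw [Function.iterate_succ_apply']
      exact hQ _ ih
  obtain ⟨k⟩ : Nonempty (Fin n) := ⟨⟨0, Nat.pos_of_ne_zero hn⟩⟩
  rw [← Finset.mul_prod_erase Finset.univ _ (Finset.mem_univ k)]
  exact Ideal.mul_mem_right _ _ ((le_sup_right : IQ Q ≤ _) (tt_mem_IQ (h1 _)))

theorem PN.exists_list (ρ : A → A)
    (hρ : ∀ e, e ≠ 0 → ∀ i j : ℕ, tt (g^[i] e) * tt (g^[j] (ρ e)) ∈ aa) (L : List A) :
    ∀ Q : AddSubgroup A, (∀ a ∈ Q, g a ∈ Q) → PN g aa c (2 ^ L.length) Q →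
      ∃ Q' : AddSubgroup A, c ∉ Q' ∧ ∀ e ∈ L, e ∈ Q' ∨ ρ e ∈ Q' := by
  suffices hmain : ∀ Q : AddSubgroup A, (∀ a ∈ Q, g a ∈ Q) → PN g aa c (2 ^ L.length) Q →
      ∃ Q' : AddSubgroup A, Q ≤ Q' ∧ c ∉ Q' ∧ ∀ e ∈ L, e ∈ Q' ∨ ρ e ∈ Q' by
    intro Q hQ h
    obtain ⟨Q', -, h1, h2⟩ := hmain Q hQ h
    exact ⟨Q', h1, h2⟩
  induction L with
  | nil =>
    intro Q hQ h
    exact ⟨Q, le_rfl, h.notMem hQ (by simp), by simp⟩
  | cons e L ih =>
    intro Q hQ h
    have hst : ∀ e', ∀ a ∈ Q ⊔ orb g e', g a ∈ Q ⊔ orb g e' := by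
      intro e'
      have h1 : Q ⊔ orb g e' ≤ (Q ⊔ orb g e').comap g := by
        refine sup_le (fun a ha => ?_) fun a ha => ?_
        · exact (le_sup_left : Q ≤ _) (hQ a ha)
        · exact (le_sup_right : orb g e' ≤ _) (orb_stable g e' a ha)
      exact h1
    by_cases he : e = 0
    · have h2 : PN g aa c (2 ^ L.length) Q := by
        rw [List.length_cons, pow_succ, mul_two] at h
        have h5 : ∀ i j : ℕ, tt (g^[i] (0 : A)) * tt (g^[j] (0 : A)) ∈ aa := by
          intro i j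
          have h4 : g^[i] (0 : A) = 0 := Function.iterate_fixed (map_zero g) i
          rw [h4, tt_zero, zero_mul]
          exact Ideal.zero_mem _
        have h4 : orb g (0 : A) = ⊥ := orb_zero g
        rcases h.step h5 with h3 | h3 <;> rwa [h4, sup_bot_eq] at h3
      obtain ⟨Q', h3, h4, h5⟩ := ih Q hQ h2
      refine ⟨Q', h3, h4, fun x hx => ?_⟩
      rcases List.mem_cons.mp hx with rfl | hx
      · left; rw [he]; exact Q'.zero_mem
      · exact h5 x hx
    · rw [List.length_cons, pow_succ, mul_two] at h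
      rcases h.step (hρ e he) with h3 | h3
      · obtain ⟨Q', h4, h5, h6⟩ := ih _ (hst e) h3
        refine ⟨Q', le_sup_left.trans h4, h5, fun x hx => ?_⟩
        rcases List.mem_cons.mp hx with rfl | hx
        · left
          exact h4 ((le_sup_right : orb g x ≤ _) (mem_orb g x))
        · exact h6 x hx
      · obtain ⟨Q', h4, h5, h6⟩ := ih _ (hst (ρ e)) h3
        refine ⟨Q', le_sup_left.trans h4, h5, fun x hx => ?_⟩
        rcases List.mem_cons.mp hx with rfl | hx
        · right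
          exact h4 ((le_sup_right : orb g (ρ x) ≤ _) (mem_orb g _))
        · exact h6 x hx

theorem PN.mono {Q : AddSubgroup A} {n m : ℕ} (hnm : n ≤ m) (h : PN g aa c m Q) :
    PN g aa c n Q := by
  obtain ⟨k, rfl⟩ := Nat.exists_eq_add_of_le hnm
  obtain ⟨s, hs⟩ := h
  refine ⟨fun i => s (Fin.castAdd k i), fun h1 => hs ?_⟩
  rw [Fin.prod_univ_add]
  exact Ideal.mul_mem_right _ _ h1

/-- If there is no product of `n` factors outside `aa`, the `n`-th power of the ideal of an orbit
lies in `aa`. -/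
theorem IQ_orb_pow_le {n : ℕ} (h : ¬ PN g aa c n ⊥) : IQ (orb g c) ^ n ≤ aa := by
  have h1 : ∀ s : Fin n → ℕ, ∏ k, tt (g^[s k] c) ∈ aa := by
    intro s
    by_contra h2
    apply h
    refine ⟨s, ?_⟩
    rwa [IQ_bot, sup_bot_eq]
  have key : ∀ m : ℕ, ∀ x ∈ IQ (orb g c) ^ m, ∀ y : AddMonoidAlgebra ℤ A,
      (∀ s : Fin m → ℕ, (∏ k, tt (g^[s k] c)) * y ∈ aa) → x * y ∈ aa := by
    intro m
    induction m with
    | zero =>
      intro x _ y hy
      have h2 := hy Fin.elim0
      rw [Fin.prod_univ_zero, one_mul] at h2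
      exact Ideal.mul_mem_left _ _ h2
    | succ m ih =>
      intro x hx y hy
      rw [pow_succ] at hx
      induction hx using Submodule.mul_induction_on' with
      | mem_mul_mem a ha b hb =>
        rw [IQ_orb] at hb
        induction hb using Submodule.span_induction with
        | mem b hb =>
          obtain ⟨i, rfl⟩ := hb
          rw [mul_assoc]
          refine ih a ha _ fun s => ?_
          have h2 := hy (Fin.snoc (α := fun _ => ℕ) s i)
          rw [Fin.prod_univ_castSucc] at h2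
          simpa only [Fin.snoc_castSucc, Fin.snoc_last, mul_assoc] using h2
        | zero => rw [mul_zero, zero_mul]; exact Ideal.zero_mem _
        | add b b' _ _ h2 h3 =>
          rw [mul_add, add_mul]
          exact Ideal.add_mem _ h2 h3
        | smul t b _ h2 =>
          rw [smul_eq_mul, mul_left_comm, mul_assoc]
          exact Ideal.mul_mem_left _ _ h2
      | add a _ b _ h2 h3 =>
        rw [add_mul]
        exact Ideal.add_mem _ h2 h3
  intro x hx
  have h2 := key n x hx 1 (fun s => by rw [mul_one]; exact h1 s)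
  rwa [mul_one] at h2

/-- powers of sums of ideals -/
theorem sup_pow_le {R : Type*} [CommRing R] {aa : Ideal R} {n : ℕ} {κ : Type*} (s : Finset κ)
    (I : κ → Ideal R) (h : ∀ i ∈ s, I i ^ n ≤ aa) : (s.sup I) ^ (s.card * n + 1) ≤ aa := by
  classical
  induction s using Finset.induction_on with
  | empty =>
    rw [Finset.sup_empty, Finset.card_empty, zero_mul, zero_add, pow_one]
    exact bot_le
  | insert a s ha ih =>
    rw [Finset.sup_insert, Finset.card_insert_of_notMem ha]
    have h1 : (s.card + 1) * n + 1 = n + (s.card * n + 1) := by ring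
    rw [h1]
    refine Ideal.sup_pow_add_le_pow_sup_pow.trans (sup_le (h a (Finset.mem_insert_self a s)) ?_)
    exact ih fun i hi => h i (Finset.mem_insert_of_mem hi)

/-- If there is no product of `n` factors outside `aa`, every product of `d n + 1` factors
`tt b`, `b` in the sum of `d` orbit groups, lies in `aa`. -/
theorem prod_mem_of_orbs {n : ℕ} (h : ∀ c, ¬ PN g aa c n ⊥) {κ : Type*} (s : Finset κ) (c : κ → A)
    (b : Fin (s.card * n + 1) → A) (hb : ∀ k, b k ∈ s.sup fun i => orb g (c i)) :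
    ∏ k, tt (b k) ∈ aa := by
  classical
  have h1 : IQ (s.sup fun i => orb g (c i)) = s.sup fun i => IQ (orb g (c i)) := by
    clear hb b
    induction s using Finset.induction_on with
    | empty => rw [Finset.sup_empty, Finset.sup_empty, IQ_bot]
    | insert a s ha ih => rw [Finset.sup_insert, Finset.sup_insert, IQ_sup, ih]
  refine sup_pow_le s (fun i => IQ (orb g (c i))) (fun i _ => IQ_orb_pow_le (h _)) ?_
  rw [← h1]
  have h2 := Ideal.prod_mem_prod (s := (Finset.univ : Finset (Fin (s.card * n + 1))))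
    (I := fun _ => IQ (s.sup fun i => orb g (c i))) (x := fun k => tt (b k))
    (fun k _ => tt_mem_IQ (hb k))
  rwa [Finset.prod_const, Finset.card_univ, Fintype.card_fin] at h2

end ring

section compact

/-- compactness -/
theorem exists_half_of_finset {B : Type} [AddCommGroup B] (ρ : B → B) (c : B)
    (h : ∀ F : Finset B, ∃ Q : AddSubgroup B, c ∉ Q ∧ ∀ x ∈ F, x ∈ Q ∨ ρ x ∈ Q) :
    ∃ Q : AddSubgroup B, c ∉ Q ∧ ∀ x, x ∈ Q ∨ ρ x ∈ Q := by
  choose Q hQ1 hQ2 using h
  set l : Ultrafilter (Finset B) := Ultrafilter.of atTop with hl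
  have hle : (l : Filter (Finset B)) ≤ atTop := Ultrafilter.of_le atTop
  refine ⟨{ carrier := {x | ∀ᶠ F in (l : Filter (Finset B)), x ∈ Q F}
            zero_mem' := Eventually.of_forall fun F => (Q F).zero_mem
            add_mem' := fun {a b} ha hb => by
              filter_upwards [ha, hb] with F h1 h2
              exact (Q F).add_mem h1 h2
            neg_mem' := fun {a} ha => by
              filter_upwards [ha] with F h1
              exact (Q F).neg_mem h1 }, ?_, ?_⟩
  · intro hc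
    have hc' : ∀ᶠ F in (l : Filter (Finset B)), c ∈ Q F := hc
    obtain ⟨F, hF⟩ := hc'.exists
    exact hQ1 F hF
  · intro x
    have h1 : ∀ᶠ F in (l : Filter (Finset B)), x ∈ Q F ∨ ρ x ∈ Q F := by
      have h2 : ∀ᶠ F in (l : Filter (Finset B)), {x} ≤ F := hle (eventually_ge_atTop _)
      filter_upwards [h2] with F hF
      exact hQ2 F x (Finset.singleton_subset_iff.mp hF)
    exact Ultrafilter.eventually_or.mp h1

variable {A : Type} [AddCommGroup A] {J : A → A → A}

/-- **The pair.**  If products of any number of factors stay outside `aa`, the ultrapower has a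
proper subgroup which contains `x` or `x⁻¹` for every `x`. -/
theorem exists_half (hJ : JSys J) {e : A} (he : e ≠ 0) (g : A →+ A)
    (aa : Ideal (AddMonoidAlgebra ℤ A))
    (hρ : ∀ x, x ≠ 0 → ∀ i j : ℕ, tt (g^[i] x) * tt (g^[j] ((toHS hJ e he).inv x)) ∈ aa)
    (hC : ∀ n, ∃ c, PN g aa c n ⊥) :
    ∃ (Q : AddSubgroup (UP A)) (c : UP A), c ∉ Q ∧ ∀ x, x ∈ Q ∨ (HU hJ he).inv x ∈ Q := by
  classical
  choose c hc using fun n => hC (2 ^ n)
  obtain ⟨r, hr⟩ : ∃ r : UP A → ℕ → A, ∀ x, ((r x : ℕ → A) : UP A) = x := by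
    have h1 : ∀ x : UP A, ∃ f : ℕ → A, (f : UP A) = x := fun x =>
      Germ.inductionOn x fun f => ⟨f, rfl⟩
    choose r hr using h1
    exact ⟨r, hr⟩
  have hrr : ∀ f : ℕ → A, ∀ᶠ n in UF, r (f : UP A) n = f n := fun f =>
    Germ.coe_eq.mp (hr (f : UP A))
  suffices h : ∀ F : Finset (UP A), ∃ Q : AddSubgroup (UP A), (c : UP A) ∉ Q ∧
      ∀ x ∈ F, x ∈ Q ∨ (HU hJ he).inv x ∈ Q by
    obtain ⟨Q, h1, h2⟩ := exists_half_of_finset _ _ h
    exact ⟨Q, _, h1, h2⟩
  intro F
  have hQ : ∀ n, ∃ Q : AddSubgroup A, F.toList.length ≤ n → c n ∉ Q ∧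
      ∀ x ∈ F, r x n ∈ Q ∨ (toHS hJ e he).inv (r x n) ∈ Q := by
    intro n
    by_cases hn : F.toList.length ≤ n
    · have h1 : PN g aa (c n) (2 ^ (F.toList.map fun x => r x n).length) ⊥ := by
        rw [List.length_map]
        exact (hc n).mono (Nat.pow_le_pow_right two_pos hn)
      obtain ⟨Q, h2, h3⟩ := PN.exists_list _ hρ _ ⊥ (fun a ha => by
        rw [AddSubgroup.mem_bot] at ha ⊢
        rw [ha, map_zero]) h1
      refine ⟨Q, fun _ => ⟨h2, fun x hx => ?_⟩⟩
      exact h3 _ (List.mem_map.mpr ⟨x, Finset.mem_toList.mpr hx, rfl⟩)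
    · exact ⟨⊥, fun h => absurd h hn⟩
  choose Q hQ using hQ
  have hbig : ∀ᶠ n in UF, F.toList.length ≤ n :=
    Nat.hyperfilter_le_atTop (eventually_ge_atTop _)
  refine ⟨{ carrier := {x | ∀ᶠ n in UF, r x n ∈ Q n}
            zero_mem' := by
              filter_upwards [hrr fun _ => (0 : A)] with n h1
              change r ((fun _ => (0 : A) : ℕ → A) : UP A) n ∈ Q n
              rw [h1]
              exact (Q n).zero_mem
            add_mem' := fun {a b} ha hb => by
              have h1 := hrr fun n => r a n + r b n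
              have h2 : (((fun n => r a n + r b n) : ℕ → A) : UP A) = a + b := by
                conv_rhs => rw [← hr a, ← hr b]
                rfl
              rw [h2] at h1
              filter_upwards [ha, hb, h1] with n h3 h4 h5
              rw [h5]
              exact (Q n).add_mem h3 h4
            neg_mem' := fun {a} ha => by
              have h1 := hrr fun n => -r a n
              have h2 : (((fun n => -r a n) : ℕ → A) : UP A) = -a := by
                conv_rhs => rw [← hr a]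
                rfl
              rw [h2] at h1
              filter_upwards [ha, h1] with n h3 h5
              rw [h5]
              exact (Q n).neg_mem h3 }, ?_, ?_⟩
  · intro h
    have h' : ∀ᶠ n in UF, r (c : UP A) n ∈ Q n := h
    obtain ⟨n, h1, h2, h3⟩ := (h'.and ((hrr c).and hbig)).exists
    rw [h2] at h1
    exact (hQ n h3).1 h1
  · intro x hx
    have h1 : ∀ᶠ n in UF, r x n ∈ Q n ∨ (toHS hJ e he).inv (r x n) ∈ Q n := by
      filter_upwards [hbig] with n hn
      exact (hQ n hn).2 x hx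
    rcases Ultrafilter.eventually_or.mp h1 with h2 | h2
    · exact Or.inl h2
    · right
      have h3 := hrr fun n => (toHS hJ e he).inv (r x n)
      have h4 : (((fun n => (toHS hJ e he).inv (r x n)) : ℕ → A) : UP A) = (HU hJ he).inv x := by
        conv_rhs => rw [← hr x]
        rfl
      rw [h4] at h3
      change ∀ᶠ n in UF, r ((HU hJ he).inv x) n ∈ Q n
      filter_upwards [h2, h3] with n h5 h6
      rw [h6]
      exact h5

/-- the closed pair of a half -/
theorem cp_of_half (H : HS A) (Q : AddSubgroup A) (hQ : ∀ x, x ∈ Q ∨ H.inv x ∈ Q) :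
    CP H (rho H Q) (rho H (rho H Q)) ∧ rho H Q ≤ Q ∧ rho H (rho H Q) ≤ Q := by
  refine ⟨cp_rho H Q, rho_le fun v hv => (hQ v).resolve_left hv, rho_le fun v hv => ?_⟩
  by_contra h
  apply hv
  have h1 : H.inv (H.inv v) ∈ rho H Q := mem_rho h
  rwa [H.inv_inv] at h1

end compact

end Pool.Agent.HuaP87
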