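import Mathlib
import Pool.Agent.HuaP87.Comp
import Pool.Agent.HuaTwo61.Main

/-!
# Characteristic `p`: finite degree along a field
-/

set_option autoImplicit false

open Filter Polynomial

namespace Pool.Agent.HuaP87

open Pool.Agent.HuaTop84 Pool.Agent.HuaVal Pool.Agent.HuaOne84 Pool.Agent.HuaPair25
  Pool.Agent.HuaKey73

section

variable {p : ℕ} [Fact p.Prime] {L : Type} [Field L] [Algebra (ZMod p) L]

/-- change of the generator -/
theorem gen_change {t l : L}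
    (hgen : ∀ u : L, ∃ f g : (ZMod p)[X], aeval t g ≠ 0 ∧ u = aeval t f / aeval t g)
    (hl : ∃ f g : (ZMod p)[X], aeval l g ≠ 0 ∧ t = aeval l f / aeval l g) (u : L) :
    ∃ f g : (ZMod p)[X], aeval l g ≠ 0 ∧ u = aeval l f / aeval l g := by
  refine Pool.Agent.HuaTwo61.gen_top hgen
    {u : L | ∃ f g : (ZMod p)[X], aeval l g ≠ 0 ∧ u = aeval l f / aeval l g} ?_ hl ?_ ?_ ?_ u
  · exact ⟨1, 1, by simp, by simp⟩
  · rintro u v ⟨f, g, hg, rfl⟩ ⟨f', g', hg', rfl⟩
    refine ⟨f * g' - f' * g, g * g', ?_, ?_⟩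
    · rw [map_mul]
      exact mul_ne_zero hg hg'
    · rw [map_sub, map_mul, map_mul, map_mul]
      field_simp
  · rintro u v ⟨f, g, hg, rfl⟩ ⟨f', g', hg', rfl⟩
    refine ⟨f * f', g * g', ?_, ?_⟩
    · rw [map_mul]
      exact mul_ne_zero hg hg'
    · rw [map_mul, map_mul]
      field_simp
  · rintro u ⟨f, g, hg, rfl⟩
    by_cases hf : aeval l f = 0
    · refine ⟨0, 1, by simp, ?_⟩
      rw [hf]
      simp
    · refine ⟨g, f, hf, ?_⟩
      rw [inv_div]

variable {A : Type} [AddCommGroup A] {g : A →+ A} {aa : Ideal (AddMonoidAlgebra ℤ A)}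

/-- Finitely many elements of the field lie in the sum of `d` orbit groups. -/
theorem exists_orbs {φ : L →+ A} {l : L} {d : ℕ} (hd : 0 < d)
    (hg : ∀ u, g (φ u) = φ (l ^ d * u))
    (hgen : ∀ u : L, ∃ f g : (ZMod p)[X], aeval l g ≠ 0 ∧ u = aeval l f / aeval l g)
    {κ : Type} [Fintype κ] (b : κ → L) :
    ∃ c : Fin d → A, ∀ k, φ (b k) ∈ (Finset.univ : Finset (Fin d)).sup fun i => orb g (c i) := by
  classical
  choose f q hq hb using fun k => hgen (b k)
  set Q : L := ∏ k, aeval l (q k) with hQ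
  have hQ0 : Q ≠ 0 := Finset.prod_ne_zero_iff.mpr fun k _ => hq k
  refine ⟨fun i => φ (l ^ (i : ℕ) / Q), fun k => ?_⟩
  set S : AddSubgroup L := ((Finset.univ : Finset (Fin d)).sup fun i =>
    orb g (φ (l ^ (i : ℕ) / Q))).comap φ with hS
  have hmon : ∀ j : ℕ, l ^ j / Q ∈ S := by
    intro j
    have h1 : ∀ m : ℕ, ∀ i : Fin d, g^[m] (φ (l ^ (i : ℕ) / Q)) = φ (l ^ (d * m + i) / Q) := by
      intro m i
      induction m with
      | zero => simp
      | succ m ih =>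
        rw [Function.iterate_succ_apply', ih, hg]
        congr 1
        rw [mul_div_assoc', ← pow_add]
        congr 2
        ring
    rw [hS, AddSubgroup.mem_comap]
    have h2 : j = d * (j / d) + ((⟨j % d, Nat.mod_lt _ hd⟩ : Fin d) : ℕ) :=
      (Nat.div_add_mod j d).symm
    rw [h2, ← h1]
    have h3 : orb g (φ (l ^ (((⟨j % d, Nat.mod_lt _ hd⟩ : Fin d) : ℕ)) / Q)) ≤
        (Finset.univ : Finset (Fin d)).sup fun i => orb g (φ (l ^ (i : ℕ) / Q)) :=
      Finset.le_sup (f := fun i : Fin d => orb g (φ (l ^ (i : ℕ) / Q))) (Finset.mem_univ _)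
    exact h3 (AddSubgroup.subset_closure ⟨j / d, rfl⟩)
  have hpol : ∀ F : (ZMod p)[X], aeval l F / Q ∈ S := by
    intro F
    rw [aeval_eq_sum_range, Finset.sum_div]
    refine AddSubgroup.sum_mem _ fun j _ => ?_
    rw [smul_div_assoc]
    exact ZMod.smul_mem (hmon j) _
  change b k ∈ S
  have h4 : b k = aeval l (f k * ∏ k' ∈ Finset.univ.erase k, q k') / Q := by
    rw [hb k, map_mul, map_prod, hQ, ← Finset.mul_prod_erase Finset.univ _ (Finset.mem_univ k)]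
    have h5 : ∏ k' ∈ Finset.univ.erase k, aeval l (q k') ≠ 0 :=
      Finset.prod_ne_zero_iff.mpr fun k' _ => hq k'
    rw [mul_comm (aeval l (f k)), mul_comm (aeval l (q k)), mul_div_mul_left _ _ h5]
  rw [h4]
  exact hpol _

/-- **Finite degree along the field.** -/
theorem fd_of_not {φ : L →+ A} {l : L} {d : ℕ} (hd : 0 < d)
    (hg : ∀ u, g (φ u) = φ (l ^ d * u))
    (hgen : ∀ u : L, ∃ f g : (ZMod p)[X], aeval l g ≠ 0 ∧ u = aeval l f / aeval l g)
    (h : ¬ ∀ n, ∃ c, PN g aa c n ⊥) :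
    ∃ N : ℕ, ∀ b : Fin N → L, ∏ k, tt (φ (b k)) ∈ aa := by
  push Not at h
  obtain ⟨n, hn⟩ := h
  refine ⟨(Finset.univ : Finset (Fin d)).card * n + 1, fun b => ?_⟩
  obtain ⟨c, hc⟩ := exists_orbs hd hg hgen b
  exact prod_mem_of_orbs hn Finset.univ c (fun k => φ (b k)) hc

/-- **Dichotomy.**  Either the ultrapower has a closed pair of proper subgroups, or products of
`N` factors `tt (φ b)`, `b` in the field, lie in the ideal `aa`. -/
theorem dichotomy {J : A → A → A} (hJ : JSys J) {e : A} (he : e ≠ 0)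
    (hρ : ∀ x, x ≠ 0 → ∀ i j : ℕ, tt (g^[i] x) * tt (g^[j] ((toHS hJ e he).inv x)) ∈ aa)
    {φ : L →+ A} {l : L} {d : ℕ} (hd : 0 < d) (hg : ∀ u, g (φ u) = φ (l ^ d * u))
    (hgen : ∀ u : L, ∃ f g : (ZMod p)[X], aeval l g ≠ 0 ∧ u = aeval l f / aeval l g) :
    (∃ (P V : AddSubgroup (UP A)) (c : UP A), CP (HU hJ he) P V ∧ c ∉ P ∧ c ∉ V) ∨
      ∃ N : ℕ, ∀ b : Fin N → L, ∏ k, tt (φ (b k)) ∈ aa := by
  by_cases h : ∀ n, ∃ c, PN g aa c n ⊥
  · left
    obtain ⟨Q, c, hc, hQ⟩ := exists_half hJ he g aa hρ h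
    obtain ⟨h1, h2, h3⟩ := cp_of_half (HU hJ he) Q hQ
    exact ⟨_, _, c, h1, fun h4 => hc (h2 h4), fun h4 => hc (h3 h4)⟩
  · right
    exact fd_of_not hd hg hgen h

end

end Pool.Agent.HuaP87
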