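import Mathlib
import Pool.Agent.HuaKey73.Final
import Pool.Agent.HuaDom91.SubG
import Pool.Agent.HuaP87.Fd

/-!
# From a proper closed pair to a perfect pair of an ultrapower (any characteristic)
-/

set_option autoImplicit false

open Filter

namespace Pool.Agent.HuaP87

open Pool.Agent.HuaTop84 Pool.Agent.HuaVal Pool.Agent.HuaOne84 Pool.Agent.HuaPair25
  Pool.Agent.HuaKey73 Pool.Agent.HuaDom91

variable {A : Type} [AddCommGroup A] {J : A → A → A}

/-- A closed pair with a point outside both subgroups gives a perfect pair of the ultrapower. -/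
theorem exists_perfG (hJ : JSys J) {e : A} (he : e ≠ 0) {P V : AddSubgroup A}
    (h : CP (toHS hJ e he) P V) {c : A} (hcP : c ∉ P) (hcV : c ∉ V) :
    ∃ (a : A) (ha : a ≠ 0) (P' R' : AddSubgroup (UP A)), PerfG (HU hJ ha) P' R' := by
  have hc0 : c ≠ 0 := CP.ne_zero hcP
  have hcp' := h.iso hc0
  have hx' : (toHS hJ e he).U c c ∉ V.comap ((toHS hJ e he).U ((toHS hJ e he).inv c)) := by
    intro h1
    apply hcV
    change (toHS hJ e he).U ((toHS hJ e he).inv c) ((toHS hJ e he).U c c) ∈ V at h1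
    rwa [(toHS hJ e he).U_inv_left c _ hc0] at h1
  exact ⟨c, hc0, Zg hJ hc0 hcp' hcP hx', rho (HU hJ hc0) (Zg hJ hc0 hcp' hcP hx'),
    Z_ne_bot hJ hc0 hcp' hcP hx', fun h2 => Z_one hJ hc0 hcp' hcP hx' (h2 ▸ AddSubgroup.mem_top _),
    fun y hy => Z_perf hJ hc0 hcp' hcP hx' hy⟩

/-- The ultrapower of an elementary abelian group. -/
theorem ultra_exp {p : ℕ} (hp : ∀ a : A, p • a = 0) (a : UP A) : p • a = 0 :=
  Germ.inductionOn a fun f => Germ.coe_eq.mpr (Eventually.of_forall fun n => hp (f n))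

/-- A perfect pair, as a pair of subspaces. -/
theorem perf_of_perfG {p : ℕ} [Fact p.Prime] [Module (ZMod p) A] {H : HS A} {P R : AddSubgroup A}
    (h : PerfG H P R) : Perf H (AddSubgroup.toZModSubmodule p P) (AddSubgroup.toZModSubmodule p R) := by
  refine ⟨fun h1 => h.ne_bot ?_, fun h1 => h.ne_top ?_, fun y hy => ?_⟩
  · rw [← (AddSubgroup.toZModSubmodule p).apply_symm_apply ⊥] at h1
    have h2 := (AddSubgroup.toZModSubmodule p).injective h1
    rw [h2]
    exact (AddSubgroup.toZModSubmodule p).symm.map_bot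
  · rw [← (AddSubgroup.toZModSubmodule p).apply_symm_apply ⊤] at h1
    have h2 := (AddSubgroup.toZModSubmodule p).injective h1
    rw [h2]
    exact (AddSubgroup.toZModSubmodule p).symm.map_top
  · rw [AddSubgroup.mem_toZModSubmodule, AddSubgroup.mem_toZModSubmodule]
    exact h.iff y hy

/-- **From a proper closed pair to vanishing third differences**, in characteristic `p`, given the
theorem for perfect pairs. -/
theorem T3_of_cp {p : ℕ} [Fact p.Prime] (hp : ∀ a : A, p • a = 0)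
    (hperf : ∀ (B : Type) [AddCommGroup B] [Module (ZMod p) B] (I : B → B → B) (hI : JSys I)
      (e : B) (he : e ≠ 0) (P R : Submodule (ZMod p) B), Perf (toHS hI e he) P R →
      ∀ e', e' ≠ 0 → ∀ x y z c, T3 I e' x y z c = 0)
    (hJ : JSys J) {e : A} (he : e ≠ 0) {P V : AddSubgroup A} (h : CP (toHS hJ e he) P V) {c : A}
    (hcP : c ∉ P) (hcV : c ∉ V) : ∀ e', e' ≠ 0 → ∀ x y z c, T3 J e' x y z c = 0 := by
  intro e' he' x y z c'
  obtain ⟨a, ha, P', R', h1⟩ := exists_perfG hJ he h hcP hcV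
  let _ : Module (ZMod p) (UP A) := AddCommGroup.zmodModule (ultra_exp hp)
  have h2 := hperf (UP A) (JU J) hJ.ultra (dg a) (dg_ne ha) _ _ (perf_of_perfG h1) (dg e') (dg_ne he')
    (dg x) (dg y) (dg z) (dg c')
  rw [dg_T3] at h2
  exact dg_inj (h2.trans dg_zero.symm)

/-- The same for a closed pair of the ultrapower. -/
theorem T3_of_cp_ultra {p : ℕ} [Fact p.Prime] (hp : ∀ a : A, p • a = 0)
    (hperf : ∀ (B : Type) [AddCommGroup B] [Module (ZMod p) B] (I : B → B → B) (hI : JSys I)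
      (e : B) (he : e ≠ 0) (P R : Submodule (ZMod p) B), Perf (toHS hI e he) P R →
      ∀ e', e' ≠ 0 → ∀ x y z c, T3 I e' x y z c = 0)
    (hJ : JSys J) {e : A} (he : e ≠ 0) {P V : AddSubgroup (UP A)} (h : CP (HU hJ he) P V)
    {c : UP A} (hcP : c ∉ P) (hcV : c ∉ V) : ∀ e', e' ≠ 0 → ∀ x y z c, T3 J e' x y z c = 0 := by
  intro e' he' x y z c'
  have h2 := T3_of_cp (ultra_exp hp) hperf hJ.ultra (dg_ne he) h hcP hcV (dg e') (dg_ne he')
    (dg x) (dg y) (dg z) (dg c')
  rw [dg_T3] at h2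
  exact dg_inj (h2.trans dg_zero.symm)

end Pool.Agent.HuaP87
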